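import Pool.Agent.helper69.DH.SpecR2

/-! Row d2:rMXE (MP_5823cb_al): from `L^2` to the discrete mixing. helper36 -/

set_option autoImplicit false

open Filter Topology MeasureTheory
open scoped commutatorElement

namespace Pool.Agent.helper90.DH

open Pool.Agent.helper64.D2

theorem rMXE_mem_cell (s : ℕ) (k : ℤ) (x : ℝ) : x ∈ cell s k ↔ ci s x = k := by
  unfold cell ci
  rw [Set.mem_Ico, Int.floor_eq_iff, div_le_iff₀ (by positivity), lt_div_iff₀ (by positivity), mul_comm x]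

theorem rMXE_meas (s : ℕ) (k : ℤ) : MeasurableSet (cell s k) := measurableSet_Ico

theorem rMXE_vol (s : ℕ) (k : ℤ) : volume.real (cell s k) = 1 / 2 ^ s := by
  unfold cell
  rw [Real.volume_real_Ico_of_le]
  · ring
  · gcongr
    linarith

theorem rMXE_int (s : ℕ) (k : ℤ) : Integrable ((cell s k).indicator (1 : ℝ → ℝ)) ∧ ∫ x, (cell s k).indicator (1 : ℝ → ℝ) x = 1 / 2 ^ s := by
  constructor
  · refine IntegrableOn.integrable_indicator ?_ (rMXE_meas s k)
    exact integrableOn_const (by unfold cell; exact measure_Ico_lt_top.ne)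
  · rw [integral_indicator_one (rMXE_meas s k), rMXE_vol]

theorem rMXE_ind (s : ℕ) (B : Finset ℤ) (x : ℝ) : (UC s B).indicator (1 : ℝ → ℝ) x = ∑ m ∈ B, (cell s m).indicator (1 : ℝ → ℝ) x := by
  classical
  by_cases hx : ci s x ∈ B
  · rw [Set.indicator_of_mem (show x ∈ UC s B from hx)]
    rw [Finset.sum_eq_single (ci s x)]
    · rw [Set.indicator_of_mem ((rMXE_mem_cell s _ x).2 rfl)]
    · intro m _ hm
      rw [Set.indicator_of_notMem]
      intro h
      exact hm ((rMXE_mem_cell s m x).1 h).symm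
    · intro h; exact absurd hx h
  · rw [Set.indicator_of_notMem (show x ∉ UC s B from hx)]
    symm
    apply Finset.sum_eq_zero
    intro m hm
    rw [Set.indicator_of_notMem]
    intro h
    exact hx ((rMXE_mem_cell s m x).1 h ▸ hm)

theorem rMXE_measU (s : ℕ) (B : Finset ℤ) : MeasurableSet (UC s B) := by
  have h : UC s B = ⋃ m ∈ B, cell s m := by
    ext x
    simp only [Set.mem_iUnion, exists_prop]
    constructor
    · intro hx
      exact ⟨ci s x, hx, (rMXE_mem_cell s _ x).2 rfl⟩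
    · rintro ⟨m, hm, hx⟩
      show ci s x ∈ B
      rw [(rMXE_mem_cell s m x).1 hx]
      exact hm
  rw [h]
  exact Finset.measurableSet_biUnion B fun m _ => rMXE_meas s m

theorem rMXE_BM (s : ℕ) (B : Finset ℤ) (h : ∀ k ∈ B, cell s k ⊆ Set.Icc (0 : ℝ) 1) : BM ((UC s B).indicator (1 : ℝ → ℝ)) := by
  refine ⟨measurable_one.indicator (rMXE_measU s B), ⟨1, fun x => ?_⟩, fun x hx => ?_⟩
  · by_cases hx : x ∈ UC s B
    · rw [Set.indicator_of_mem hx]; simp
    · rw [Set.indicator_of_notMem hx]; simp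
  · rw [Set.indicator_of_notMem]
    intro hxU
    exact hx (h _ hxU ((rMXE_mem_cell s _ x).2 rfl))

theorem rMXE_nsq (s : ℕ) (B : Finset ℤ) : nsq ((UC s B).indicator (1 : ℝ → ℝ)) = (B.card : ℝ) / 2 ^ s := by
  unfold nsq
  have h1 : ∀ x : ℝ, (UC s B).indicator (1 : ℝ → ℝ) x ^ 2 = ∑ m ∈ B, (cell s m).indicator (1 : ℝ → ℝ) x := by
    intro x
    rw [← rMXE_ind]
    by_cases hx : x ∈ UC s B
    · rw [Set.indicator_of_mem hx]; simp
    · rw [Set.indicator_of_notMem hx]; simp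
  simp_rw [h1]
  rw [integral_finsetSum B fun m _ => (rMXE_int s m).1]
  rw [Finset.sum_congr rfl fun m _ => (rMXE_int s m).2]
  rw [Finset.sum_const, nsmul_eq_mul]
  ring

/-- the cells which are reached. -/
theorem rMXE_cell (P : RQ) (s i : ℕ) (A : Finset ℤ) (m : ℤ) (x : ℝ) (hma : rMA P s i) (hx : x ∈ cell s m)
    (h : ∃ n ∈ A, |rcc P s i m - n| ≤ 4) : ev (P.cm s i) x ∈ UC s (rpl A) := by
  obtain ⟨n, hn, hn4⟩ := h
  have h2s : (0 : ℝ) < 2 ^ s := by positivity
  unfold cell at hx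
  obtain ⟨hx1, hx2⟩ := hx
  have hu1 : rlp s m ≤ x := hx1
  have hu2 : x - rlp s m < 1 / 2 ^ s := by
    have : rlp s m = (m : ℝ) / 2 ^ s := rfl
    rw [this]
    have e : ((m : ℝ) + 1) / 2 ^ s = (m : ℝ) / 2 ^ s + 1 / 2 ^ s := by ring
    rw [e] at hx2
    linarith
  have hm1 : ev (P.cm s i) (rlp s m) ≤ ev (P.cm s i) x := ev_mono _ hu1
  have hm2 := (hma.1 x (rlp s m)).1
  rw [abs_of_nonneg (by linarith : 0 ≤ x - rlp s m)] at hm2
  have hm3 := (abs_le.1 hm2).2
  have hd : 0 ≤ x - rlp s m := by linarith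
  have hm4 : ev (P.cm s i) x < ev (P.cm s i) (rlp s m) + 2 / 2 ^ s := by
    have e1 : (x - rlp s m) / 2 ^ 27 ≤ x - rlp s m := div_le_self hd (by norm_num)
    have e2 : (2 : ℝ) / 2 ^ s = 1 / 2 ^ s + 1 / 2 ^ s := by ring
    rw [e2]
    linarith
  -- the floors
  have hr1 : rcc P s i m ≤ ci s (ev (P.cm s i) x) := by
    unfold rcc ci
    exact Int.floor_le_floor (by gcongr)
  have hr2 : ci s (ev (P.cm s i) x) ≤ rcc P s i m + 2 := by
    have h3 : (2 : ℝ) ^ s * ev (P.cm s i) x < 2 ^ s * ev (P.cm s i) (rlp s m) + 2 := by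
      have := mul_lt_mul_of_pos_left hm4 h2s
      rw [mul_add, mul_div_cancel₀ _ h2s.ne'] at this
      exact this
    have h4 : (2 : ℝ) ^ s * ev (P.cm s i) (rlp s m) < (rcc P s i m : ℝ) + 1 := by
      unfold rcc ci
      exact Int.lt_floor_add_one _
    have h5 : ci s (ev (P.cm s i) x) < rcc P s i m + 3 := by
      unfold ci
      rw [Int.floor_lt]
      push_cast
      linarith
    omega
  show ci s (ev (P.cm s i) x) ∈ rpl A
  unfold rpl
  rw [Finset.mem_biUnion]
  refine ⟨n, hn, ?_⟩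
  rw [Finset.mem_Icc]
  rw [abs_le] at hn4
  omega

theorem rMXE (hLBM : LBM_stmt) (hLCS : LCS_stmt) : rMXE_stmt := by
  classical
  intro P s A B Lam hq hell hP hLam hA hnsq
  have h2s : (0 : ℝ) < 2 ^ s := by positivity
  have hq0 : (0 : ℝ) < P.q := by exact_mod_cast hq
  set f : ℝ → ℝ := (UC s (rpl A)).indicator 1 with hf
  set g : ℝ → ℝ := Mop P.q (P.cm s) f with hg
  set N : ℤ → ℕ := fun m => ((Finset.range P.q).filter (fun i => ∃ n ∈ A, |rcc P s i m - n| ≤ 4)).card with hN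
  -- the count
  have hree : ree P s A B = ∑ m ∈ B, N m := by
    unfold ree
    rw [Finset.card_filter, Finset.sum_product_right]
    refine Finset.sum_congr rfl fun m _ => ?_
    rw [hN]
    simp only
    rw [Finset.card_filter]
  set B' : Finset ℤ := B.filter (fun m => 0 ≤ m ∧ m < 2 ^ s) with hB'
  have hNz : ∀ m ∈ B, m ∉ B' → N m = 0 := by
    intro m hm hm'
    rw [hN]
    simp only
    rw [Finset.card_eq_zero, Finset.filter_eq_empty_iff]
    intro i _ hcon
    obtain ⟨n, hn, hn4⟩ := hcon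
    have hout : ¬ (0 ≤ m ∧ m < 2 ^ s) := by
      intro h
      exact hm' (Finset.mem_filter.2 ⟨hm, h⟩)
    have hid : rcc P s i m = m := by
      unfold rcc
      have h1 : ev (P.cm s i) (rlp s m) = rlp s m := by
        apply ev_out
        rintro ⟨h1, h2⟩
        apply hout
        unfold rlp at h1 h2
        rw [lt_div_iff₀ h2s, zero_mul] at h1
        rw [div_lt_one h2s] at h2
        exact ⟨by exact_mod_cast h1.le, by exact_mod_cast h2⟩
      rw [h1]
      unfold ci rlp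
      rw [mul_div_cancel₀ _ h2s.ne', Int.floor_intCast]
    rw [hid] at hn4
    have hmem : m ∈ rpl A := by
      unfold rpl
      rw [Finset.mem_biUnion]
      refine ⟨n, hn, ?_⟩
      rw [Finset.mem_Icc]
      rw [abs_le] at hn4
      omega
    have h1 : ((m : ℝ) / 2 ^ s) ∈ Set.Icc (1 / 4 : ℝ) (3 / 4) := by
      apply hA m hmem
      unfold cell
      refine ⟨le_refl _, ?_⟩
      gcongr
      linarith
    apply hout
    obtain ⟨h2, h3⟩ := h1
    have h4 : (0 : ℝ) < (m : ℝ) / 2 ^ s := by linarith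
    have h5 : (m : ℝ) / 2 ^ s < 1 := by linarith
    rw [lt_div_iff₀ h2s, zero_mul] at h4
    rw [div_lt_one h2s] at h5
    exact ⟨by exact_mod_cast h4.le, by exact_mod_cast h5⟩
  have hsum : ∑ m ∈ B, N m = ∑ m ∈ B', N m := by
    symm
    refine Finset.sum_subset (Finset.filter_subset _ _) hNz
  -- the functions
  have hcell01 : ∀ k ∈ B', cell s k ⊆ Set.Icc (0 : ℝ) 1 := by
    intro k hk x hx
    obtain ⟨-, hk1, hk2⟩ := Finset.mem_filter.1 hk
    unfold cell at hx
    obtain ⟨hx1, hx2⟩ := hx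
    have hk1' : (0 : ℝ) ≤ k := by exact_mod_cast hk1
    have hk2' : (k : ℝ) + 1 ≤ 2 ^ s := by exact_mod_cast hk2
    refine ⟨le_trans (by positivity) hx1, hx2.le.trans ?_⟩
    rw [div_le_one h2s]
    exact hk2'
  have hfBM : BM f := by
    rw [hf]
    refine rMXE_BM s _ fun k hk => (hA k hk).trans ?_
    exact Set.Icc_subset_Icc (by norm_num) (by norm_num)
  have hgBM : BM g := hLBM.2.2.2.2.2 P.q (P.cm s) f hfBM
  set h : ℝ → ℝ := (UC s B').indicator 1 with hh
  have hhBM : BM h := rMXE_BM s B' hcell01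
  have hf0 : ∀ x, 0 ≤ f x := by
    intro x
    rw [hf]
    exact Set.indicator_nonneg (fun _ _ => by simp) x
  -- the pointwise bound
  have hpt : ∀ m : ℤ, ∀ x ∈ cell s m, (N m : ℝ) / P.q ≤ g x := by
    intro m x hx
    rw [hg]
    unfold Mop
    gcongr
    rw [hN]
    simp only
    rw [Finset.card_filter]
    push_cast
    refine Finset.sum_le_sum fun i hi => ?_
    split_ifs with hc
    · rw [hf, Set.indicator_of_mem (rMXE_cell P s i A m x (hP i (Finset.mem_range.1 hi)).1 hx hc)]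
      simp
    · exact hf0 _
  have hint : (∑ m ∈ B', (N m : ℝ)) / (P.q * 2 ^ s) ≤ ∫ x, h x * g x := by
    have hI : Integrable (fun x => ∑ m ∈ B', (N m : ℝ) / P.q * (cell s m).indicator (1 : ℝ → ℝ) x) :=
      integrable_finsetSum B' fun m _ => (rMXE_int s m).1.const_mul _
    have hJ : Integrable (fun x => h x * g x) := (hLBM.2.1 1 _ (hLBM.1 h g hhBM hgBM).2.2).2.2
    have e1 : ∫ x, ∑ m ∈ B', (N m : ℝ) / P.q * (cell s m).indicator (1 : ℝ → ℝ) x = (∑ m ∈ B', (N m : ℝ)) / (P.q * 2 ^ s) := by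
      rw [integral_finsetSum B' fun m _ => (rMXE_int s m).1.const_mul _, Finset.sum_div]
      refine Finset.sum_congr rfl fun m _ => ?_
      rw [integral_const_mul, (rMXE_int s m).2]
      field_simp
    rw [← e1]
    refine integral_mono hI hJ fun x => ?_
    show ∑ m ∈ B', (N m : ℝ) / P.q * (cell s m).indicator (1 : ℝ → ℝ) x ≤ h x * g x
    rw [hh, rMXE_ind, Finset.sum_mul]
    refine Finset.sum_le_sum fun m _ => ?_
    by_cases hx : x ∈ cell s m
    · rw [Set.indicator_of_mem hx]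
      simp only [Pi.one_apply, mul_one, one_mul]
      exact hpt m x hx
    · rw [Set.indicator_of_notMem hx]
      simp
  -- Cauchy-Schwarz
  have hCS := hLCS.1 h g hhBM hgBM
  rw [rMXE_nsq s B'] at hCS
  have hcardB : (B'.card : ℝ) ≤ B.card := by exact_mod_cast Finset.card_le_card (Finset.filter_subset _ _)
  have hcardA : ((rpl A).card : ℝ) ≤ 13 * A.card := by
    have h1 : (rpl A).card ≤ ∑ n ∈ A, (Finset.Icc (n - 6) (n + 6)).card := Finset.card_biUnion_le
    have h2 : ∑ n ∈ A, (Finset.Icc (n - 6) (n + 6)).card = 13 * A.card := by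
      rw [Finset.sum_congr rfl (g := fun _ => 13)]
      · rw [Finset.sum_const, smul_eq_mul, mul_comm]
      · intro n _
        rw [Int.card_Icc]
        omega
    rw [h2] at h1
    exact_mod_cast h1
  have hreeR : (ree P s A B : ℝ) = ∑ m ∈ B', (N m : ℝ) := by
    rw [hree, hsum]
    push_cast
    rfl
  rw [← hreeR] at hint
  have hnn : (0 : ℝ) ≤ (ree P s A B : ℝ) / (P.q * 2 ^ s) := by positivity
  have h3 : ((ree P s A B : ℝ) / (P.q * 2 ^ s)) ^ 2 ≤ (B.card : ℝ) / 2 ^ s * (Lam * ((13 * A.card) / 2 ^ s)) := by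
    calc ((ree P s A B : ℝ) / (P.q * 2 ^ s)) ^ 2 ≤ (∫ x, h x * g x) ^ 2 := by gcongr
      _ ≤ (B'.card : ℝ) / 2 ^ s * nsq g := hCS
      _ ≤ (B'.card : ℝ) / 2 ^ s * (Lam * (((rpl A).card : ℝ) / 2 ^ s)) := by gcongr
      _ ≤ (B.card : ℝ) / 2 ^ s * (Lam * ((13 * A.card) / 2 ^ s)) := by gcongr
  have h4 : ((ree P s A B : ℝ) / (P.q * 2 ^ s)) ^ 2 = (ree P s A B : ℝ) ^ 2 / (P.q * 2 ^ s) ^ 2 := by rw [div_pow]
  rw [h4, div_le_iff₀ (by positivity)] at h3
  refine h3.trans (le_of_eq ?_)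
  field_simp

end Pool.Agent.helper90.DH
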